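import Pool.Agent.Lib.MP_270077_co.Weak
import Pool.Agent.Lib.MP_270077_co.LowerData

namespace Pool.Agent.Results.MP_270077_co.HeeschTwo

open Pool.Agent.Lib.MP_270077_co

/-- The convex pentagon with angles 120, 120, 90, 120, 90 degrees and sides
`8 sqrt 3, 6 sqrt 3, 10, 16, 4 sqrt 3`. -/
def pentagon : Set ℂ :=
  convexHull ℝ {0, ⟨8 * √3, 0⟩, ⟨11 * √3, 9⟩, ⟨6 * √3, 14⟩, ⟨-2 * √3, 6⟩}

/-- `r` layers in the weakest sense: increasing families of nonoverlapping copies, each covering a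
neighbourhood of the previous one; no finiteness, touching or disk condition. -/
def Layered (P : Set ℂ) (r : ℕ) : Prop :=
  ∃ F : ℕ → Set (Set ℂ), P ∈ F 0 ∧ (∀ Q ∈ F r, IsCopy P Q) ∧ (F r).PairwiseDisjoint interior ∧
    ∀ k < r, F k ⊆ F (k + 1) ∧ ⋃₀ F k ⊆ interior (⋃₀ F (k + 1))

/-- A convex pentagon that can be surrounded by two successive zones but not by three, not even
in the weakest sense. -/
theorem result :
    IsConvexPolygon pentagon ∧ Surroundable pentagon 2 ∧ ¬ Surroundable pentagon 3 ∧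
      ¬ Layered pentagon 3 := by
  have h1 : pentagon = P0 := P0_eq_hull.symm
  rw [h1]
  refine ⟨⟨{V 0, V 1, V 2, V 3, V 4}, ?_, interior_P0_nonempty⟩, LowerData.two P0_compact,
    UpperData.not_three, fun ⟨_, h0, hc, hd, hs⟩ => not_nest (nest_of_layers h0 hc hd hs)⟩
  rw [P0_eq_hull]
  simp

end Pool.Agent.Results.MP_270077_co.HeeschTwo
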